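import Pool.Agent.Helper26_BSN.Fin

/-!
# MP_b3d4e2_lc: negative answer for every `n`

For every `n ≥ 1` there is a countably saturated `BΣ_n` model `M` (an initial segment of an ultrapower
of `ℕ`, satisfying also `IΣ_{n-1}`) with a `Σ_n` cut `I` such that the degrees of subsets of `M` and
the degrees above the degree of `I` are not elementarily equivalent.
-/

namespace Pool.Agent.Results.MP_b3d4e2_lc.ConeNotEquivalentAll

open Pool.Agent.BSig FirstOrder.Language

/-- For every `n ≥ 1` some countably saturated `BΣ_n` model `M` (satisfying also `IΣ_{n-1}`) has a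
`Σ_n` cut `I` such that the partial order of the degrees of subsets of `M` and the partial order of
the degrees above `deg I` are not elementarily equivalent in the language of orders. -/
theorem result : ∀ n : ℕ, 1 ≤ n → ∃ (M : Type) (_ : PAExp M), IsCountSat M n ∧ ISigma M (n - 1) ∧
    ∃ I : Set M, IsSigmaCut n I ∧
      ¬ (ElementarilyEquivalent FirstOrder.Language.order (Deg M) (DegGE I)) :=
  Pool.Agent.BSN.final_all

end Pool.Agent.Results.MP_b3d4e2_lc.ConeNotEquivalentAll
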